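import Pool.Agent.V7H79.CX.Circ

/-!
# Additive bases with few representations have a large computational complexity

Let `A` be an asymptotic basis of order `h ≥ 2` and `r_{A,h}` its unordered representation function.

(1) If the base `b` expansions of the elements of `A` are accepted by a nondeterministic one-tape
Turing machine in time `T(l)` (`l` the number of digits), then for infinitely many `l` there is
`n < h b ^ l` with `2 r_{A,h}(n) ≥ exp (c l² / (T(l) + l))`. So the conjecture of Erdos and Turan holds,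
for all orders, for all sets which are accepted in time `o(l²)`; and `r_{A,h}(n) ≥ n ^ c / 2` for
infinitely many `n` if the time is linear (for example if `A` is automatic).

(2) Let `r_{A,h} ≤ K`. If the words of `l` digits which represent elements of `A` are covered by `M`
sets of such words, each of them closed under mixing for some partition of the places into classes of
size at most `m`, then `b ^ l ≤ 2 (M b ^ (m log₂ (2 K))) ^ h`. So, with `m = l / k`, the
nondeterministic communication complexity of the membership in `A` between `k` players, each knowing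
a part of the digits, is at least `(1 / h - log₂ (2 K) / k) l log₂ b - 1`; it is close to the trivial
upper bound if `k` is large.

(3) Let `r_{A,h} ≤ K`. If `A ∩ [0, N)` is covered by `M` subsets of `A` which are obtained by `S` steps
(unions, sum sets and difference sets of earlier sets, starting from singletons), then
`N ≤ 2 (M (16 S K²) ^ (4 log₂ (2 K))) ^ h`.

(4) If `A` is a finite union of sets whose expansions, each in its own base, form context-free
languages, then `r_{A,h}(n) ≥ n ^ c` for infinitely many `n`.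

Method.  A set of words closed under mixing, with `d` nontrivial classes, gives `2 ^ d` ordered pairs
with one sum.  The words accepted by computations with given crossing sequences at `k` cuts are closed
under mixing, and some cuts have short crossing sequences.  (3) follows from a theorem on computations
with sets in the starting files (there used for `h = 2`).
-/

set_option autoImplicit false

namespace Pool.Agent.Results.MP_d5a1e1_nt.ComplexityOfBasesH79

open Filter Topology Pool.Agent.V7H79.CX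

/-- `r_{A,h}(n)`: the number of multisets of `h` elements of `A` with sum `n` -/
noncomputable def r (A : Set ℕ) (h n : ℕ) : ℕ :=
  Set.ncard {s : Multiset ℕ | Multiset.card s = h ∧ (∀ a ∈ s, a ∈ A) ∧ s.sum = n}

/-- The machine `M` accepts the set `A` in base `b` and time `T`: it accepts (in any number of steps)
only words which represent elements of `A`, and it accepts the expansion of `a` in at most `T (l)`
steps for every `a ∈ A` with `l` digits.  Words are lists of digits, the least significant first,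
written on the cells `0, ..., l - 1` (the digit `d` as `enc d`) of a tape which is otherwise blank; the
head starts at the cell `s l`. -/
def AcceptsSet {Γ Q : Type} (M : Machine Γ Q) (enc : ℕ → Γ) (s : ℕ → ℤ) (b : ℕ) (T : ℕ → ℕ)
    (A : Set ℕ) : Prop :=
  (∀ (v : List ℕ) (t : ℕ), (∀ d ∈ v, d < b) → Accepts M enc (s v.length) v t →
    Nat.ofDigits b v ∈ A) ∧
  ∀ a ∈ A, Accepts M enc (s (Nat.digits b a).length) (Nat.digits b a) (T (Nat.digits b a).length)

/-- The language of the base `k` expansions of the elements of `B` (lists of digits, the least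
significant digit first, without leading zeros). -/
def Expansions (k : ℕ) (B : Set ℕ) : Language ℕ := {w : List ℕ | ∃ a ∈ B, w = Nat.digits k a}

/-- Complexity of additive bases with few representations. -/
theorem result (h : ℕ) (hh : 2 ≤ h) (A : Set ℕ) (hA : ∃ N : ℕ, ∀ n : ℕ, N ≤ n → 1 ≤ r A h n) :
    -- (1) Turing machines
    (∀ (b : ℕ) (Γ Q : Type) [Fintype Q] (M : Machine Γ Q) (enc : ℕ → Γ) (s : ℕ → ℤ) (T : ℕ → ℕ),
      2 ≤ b → AcceptsSet M enc s b T A →
      (∃ c : ℝ, 0 < c ∧ ∀ L : ℕ, ∃ l, L ≤ l ∧ ∃ n, n < h * b ^ l ∧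
        Real.exp (c * ((l : ℝ) ^ 2 / ((T l : ℝ) + l))) ≤ 2 * (r A h n : ℝ)) ∧
      (Tendsto (fun l : ℕ => (T l : ℝ) / (l : ℝ) ^ 2) atTop (𝓝 0) → ∀ K : ℕ, ∃ n, K < r A h n)) ∧
    -- (2) mixing, communication complexity
    (∀ K : ℕ, (∀ n, r A h n ≤ K) → ∀ b : ℕ, 2 ≤ b → ∃ L : ℕ, ∀ l, L ≤ l →
      ∀ (m M : ℕ) (c : Fin M → Fin l → Fin l) (P : Fin M → Set (Fin l → Fin b)),
      (∀ i j, (Finset.univ.filter (fun x => c i x = j)).card ≤ m) →
      (∀ i, MixClosed (c i) (P i)) → (∀ i, ∀ v ∈ P i, val b v ∈ A) →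
      (∀ v : Fin l → Fin b, val b v ∈ A → ∃ i, v ∈ P i) →
      b ^ l ≤ 2 * (M * b ^ (m * Nat.log 2 (2 * K))) ^ h) ∧
    -- (3) computations with sets
    (∀ K : ℕ, (∀ n, r A h n ≤ K) → ∃ N₀ : ℕ, ∀ N, N₀ ≤ N →
      ∀ (S M : ℕ) (G : Fin M → Finset ℤ), (∀ i, ComputedIn S (G i)) →
      (∀ i, ∀ x ∈ G i, ∃ a ∈ A, (a : ℤ) = x) → (∀ a ∈ A, a < N → ∃ i, (a : ℤ) ∈ G i) →
      N ≤ 2 * (M * (16 * S * K ^ 2) ^ (4 * Nat.log 2 (2 * K))) ^ h) ∧
    -- (4) context-free languages
    (∀ (ι : Type) [Fintype ι] (k : ι → ℕ) (B : ι → Set ℕ), (∀ i, 2 ≤ k i) →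
      (∀ i, (Expansions (k i) (B i)).IsContextFree) → A = ⋃ i, B i →
      ∃ c : ℝ, 0 < c ∧ ∀ N : ℕ, ∃ n : ℕ, N ≤ n ∧ (n : ℝ) ^ c ≤ (r A h n : ℝ)) := by
  have hB : ∃ N : ℕ, ∀ n : ℕ, N ≤ n → (Pool.Agent.V7H79.CF.Reps A h n).Nonempty := by
    obtain ⟨N, hN⟩ := hA
    refine ⟨N, fun n hn => ?_⟩
    have h1 : 1 ≤ (Pool.Agent.V7H79.CF.Reps A h n).ncard := hN n hn
    by_contra h2
    rw [Set.not_nonempty_iff_eq_empty] at h2
    rw [h2, Set.ncard_empty] at h1
    omega
  refine ⟨?_, ?_, ?_, ?_⟩
  · intro b Γ Q _ M enc s T hb hM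
    have h1 : ∃ c : ℝ, 0 < c ∧ ∀ L : ℕ, ∃ l, L ≤ l ∧ ∃ n, n < h * b ^ l ∧
        Real.exp (c * ((l : ℝ) ^ 2 / ((T l : ℝ) + l))) ≤ 2 * (r A h n : ℝ) :=
      tm_main hh hB hb M enc s T hM.1 hM.2
    refine ⟨h1, fun hT K => ?_⟩
    obtain ⟨c, hc, H⟩ := h1
    have h2 : Tendsto (fun l : ℕ => (T l : ℝ) / (l : ℝ) ^ 2 + 1 / (l : ℝ)) atTop (𝓝 0) := by
      have := hT.add (tendsto_one_div_atTop_nhds_zero_nat (𝕜 := ℝ))
      simpa using this
    set E : ℝ := Real.log (2 * K + 2) with hE
    have hE0 : 0 < E := Real.log_pos (by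
      have : (0 : ℝ) ≤ K := Nat.cast_nonneg K
      linarith)
    obtain ⟨L, hL⟩ := eventually_atTop.1 ((h2.eventually (gt_mem_nhds (show 0 < c / E by
      positivity))).and (eventually_ge_atTop 1))
    obtain ⟨l, hl, n, _, hn⟩ := H L
    refine ⟨n, ?_⟩
    obtain ⟨h3, h4⟩ := hL l hl
    have hl0 : (0 : ℝ) < l := by exact_mod_cast h4
    have hT0 : (0 : ℝ) ≤ T l := Nat.cast_nonneg _
    have h5 : (T l : ℝ) / (l : ℝ) ^ 2 + 1 / (l : ℝ) = ((T l : ℝ) + l) / (l : ℝ) ^ 2 := by
      field_simp
    rw [h5, div_lt_div_iff₀ (by positivity) hE0] at h3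
    have h6 : E < c * ((l : ℝ) ^ 2 / ((T l : ℝ) + l)) := by
      rw [← mul_div_assoc, lt_div_iff₀ (by positivity)]
      linarith
    have h7 : (2 * K + 2 : ℝ) < 2 * (r A h n : ℝ) := by
      calc (2 * K + 2 : ℝ) = Real.exp E := by
            rw [hE, Real.exp_log (by positivity)]
        _ < Real.exp (c * ((l : ℝ) ^ 2 / ((T l : ℝ) + l))) := Real.exp_lt_exp.2 h6
        _ ≤ _ := hn
    have h8 : (K : ℝ) < (r A h n : ℝ) := by linarith
    exact_mod_cast h8
  · intro K hK b hb
    exact cover_main hh hB hK hb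
  · intro K hK
    exact circ_main hh hB hK
  · intro ι _ k B hk hBi hAB
    subst hAB
    refine Pool.Agent.V7H79.CF.main k hk B hBi h hh ?_
    obtain ⟨N, hN⟩ := hB
    exact ⟨N, fun n hn => by
      obtain ⟨z, hz⟩ := hN n hn
      exact ⟨z, hz⟩⟩

end Pool.Agent.Results.MP_d5a1e1_nt.ComplexityOfBasesH79
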