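import Pool.Agent.V7H5.RP.Prob

/-!
# MP_d5a1e1_nt: the conjecture holds almost surely after a small random perturbation

`rep A h n` is `r_{A,h}(n)`, the number of multisets of `h` elements of `A` with sum `n`.  Let
`a_0 < a_1 < ...` be the elements of `A`, and move them to the right by independent random amounts:
`A' = {a_i + Z_i}`.

1. Every asymptotic basis of order `h` satisfies `a_i ≤ C (i + 1) ^ h` for some `C`.  The other
   parts are about all infinite sets `A` with this property.
2. Let `k ≥ 1` and `W = 2 ^ (h k + 1) h (C + 1) (32 k) ^ h h! + 2 k`.  If for every `z ≤ W` the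
   probability of `Z_i = z` is at least `i ^ (-1 / (4 h k))` for all large `i`, then almost surely
   `r_{A',h}(n) ≥ k` for infinitely many `n`.
3. If for every fixed `z` the probability of `Z_i = z` is at least `i ^ (-o(1))`, then `r_{A',h}` is
   almost surely unbounded.  This condition holds for independent identically distributed `Z_i` if
   all natural numbers have positive probability (the tails may be arbitrarily thin), and the
   probability of `Z_i ≠ 0` may tend to zero, so that only a proportion `o(1)` of the elements is
   moved at all.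

So every counterexample to the conjecture, for any order `h`, is destroyed with probability one by
random perturbations which are bounded in probability, or which concern only a proportion `o(1)` of
its elements.

The files from the start contain two theorems of this kind: `MP_12a1af_nt.RandomPerturbations` (the
same conditions, pairs of elements, `h = 2`) and `Pool.Agent.W167.ET.slow` (all `h`, but every `Z_i`
must be spread out over an interval whose length tends to infinity).

Method.  Let `R` be a set of at least `I / 2` indices between `I` and `2 I`.  If some `2 k` of the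
`a_i`, `i ∈ R`, are close together, we move them to consecutive numbers.  Otherwise there are
`≫ I` indices in `R` whose elements have large gaps; by pigeonhole more than `2 ^ (h k)` sets of `h`
such elements have their sums in one short window; a minimal subfamily with the same union has more
than `k` members, and each of them has a private element, by which its sum can be adjusted.  As this
holds for every `R`, there are `≫ I` disjoint possibilities of this kind, each of which occurs with
probability at least `I ^ (-1 / 4)`.
-/

set_option autoImplicit false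

open Filter MeasureTheory ProbabilityTheory

namespace Pool.Agent.Results.MP_d5a1e1_nt.RandomPerturbationsH5

/-- `r_{A,h}(n)`: the number of the multisets of `h` elements of `A` with sum `n`. -/
noncomputable def rep (A : Set ℕ) (h n : ℕ) : ℕ :=
  Set.ncard {s : Multiset ℕ | Multiset.card s = h ∧ (∀ a ∈ s, a ∈ A) ∧ s.sum = n}

/-- `A` is an asymptotic basis of order `h`. -/
def IsBasis (A : Set ℕ) (h : ℕ) : Prop := ∀ᶠ n : ℕ in atTop, 1 ≤ rep A h n

/-- the `i`-th element of the infinite set `A`, counting from `i = 0` -/
noncomputable def elt (A : Set ℕ) (i : ℕ) : ℕ := Nat.nth (fun a => a ∈ A) i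

/-- the perturbed set: the `i`-th element of `A` is replaced by itself plus `z i` -/
def moved (A : Set ℕ) (z : ℕ → ℕ) : Set ℕ := {x | ∃ i : ℕ, x = elt A i + z i}

theorem result (h : ℕ) (hh : 2 ≤ h) :
    -- 1. the growth condition for bases
    (∀ A : Set ℕ, IsBasis A h → A.Infinite ∧ ∃ C : ℕ, ∀ i : ℕ, elt A i ≤ C * (i + 1) ^ h) ∧
    ∀ (A : Set ℕ) (C : ℕ), A.Infinite → (∀ i : ℕ, elt A i ≤ C * (i + 1) ^ h) →
      ∀ (Ω : Type) [MeasurableSpace Ω] (μ : Measure Ω) [IsProbabilityMeasure μ]
        (Z : ℕ → Ω → ℕ), (∀ i, Measurable (Z i)) → iIndepFun Z μ →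
        -- 2. the quantitative form
        (∀ k : ℕ, 1 ≤ k →
          (∀ z ≤ 2 * 2 ^ (h * k) * (h * (C + 1) * (32 * k) ^ h * h.factorial) + 2 * k,
            ∀ᶠ i : ℕ in atTop,
              (i : ℝ) ^ (-(1 / (4 * (h * k))) : ℝ) ≤ μ.real {ω | Z i ω = z}) →
          ∀ᵐ ω ∂μ, ∀ m : ℕ, ∃ n ≥ m, k ≤ rep (moved A fun i => Z i ω) h n) ∧
        -- 3. unbounded representation functions
        ((∀ z : ℕ, ∀ ε : ℝ, 0 < ε → ∀ᶠ i : ℕ in atTop,
            (i : ℝ) ^ (-ε) ≤ μ.real {ω | Z i ω = z}) →
          ∀ᵐ ω ∂μ, ∀ K : ℕ, ∃ n, K < rep (moved A fun i => Z i ω) h n) := by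
  have hset : ∀ (A : Set ℕ) (z : ℕ → ℕ),
      moved A z = Set.range fun i => Nat.nth (fun a => a ∈ A) i + z i := by
    intro A z
    ext x
    constructor
    · rintro ⟨i, rfl⟩
      exact ⟨i, rfl⟩
    · rintro ⟨i, rfl⟩
      exact ⟨i, rfl⟩
  refine ⟨fun A hA => ?_, fun A C hA hC Ω _ μ _ Z hZ hind => ⟨fun k hk hpr => ?_, fun hpr => ?_⟩⟩
  · obtain ⟨N, hN⟩ := eventually_atTop.1 hA
    obtain ⟨h1, h2⟩ := Pool.Agent.V7H5.RP.basis_growth hN
    exact ⟨h1, N + 1, h2⟩
  · have hmono : StrictMono (Nat.nth (fun a => a ∈ A)) := Nat.nth_strictMono hA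
    have h1 := Pool.Agent.V7H5.RP.perturbed (μ := μ) hh hk _ hmono hC Z hZ hind (by
      have : ∀ᶠ i : ℕ in atTop, ∀ z ∈ Finset.range (Pool.Agent.V7H5.RP.width h k C + 1),
          (i : ℝ) ^ (-(1 / (4 * (h * k : ℕ))) : ℝ) ≤ μ.real {ω | Z i ω = z} :=
        (Finset.eventually_all _).2 fun z hz => by
          have h2 := Finset.mem_range.1 hz
          have h3 := hpr z (by
            rw [Pool.Agent.V7H5.RP.width] at h2
            omega)
          push_cast
          exact h3
      filter_upwards [this] with i hi z hz
      exact hi z (Finset.mem_range.2 (by omega)))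
    filter_upwards [h1] with ω hω m
    rw [hset]
    obtain ⟨m₀, hm₀⟩ := eventually_atTop.1 hω
    obtain ⟨n, hn1, hn2⟩ := hm₀ (max m m₀) (le_max_right _ _)
    exact ⟨n, (le_max_left _ _).trans hn1, hn2⟩
  · have hmono : StrictMono (Nat.nth (fun a => a ∈ A)) := Nat.nth_strictMono hA
    have h1 := Pool.Agent.V7H5.RP.perturbed_unbounded (μ := μ) hh _ hmono hC Z hZ hind hpr
    filter_upwards [h1] with ω hω K
    rw [hset]
    exact hω K

end Pool.Agent.Results.MP_d5a1e1_nt.RandomPerturbationsH5
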