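import Pool.Agent.V7H13.ET.Density

/-!
Bounded unordered representation functions of every order `h ≥ 2` leave every short range
`[L, K]` of positive integers on a set of positive lower density.  The case `L = 1`, `K = 3`
is allowed for every `h ≥ 3`.
-/

namespace Pool.Agent.Results.MP_d5a1e1_nt.ShortRangeDensityH13

open Finset Filter Topology Pool.Agent.V7H13.ET

lemma ratio_eq (g : ℕ) : ((g : ℝ) + 1) / (g + 2) = 1 - 1 / ((g + 2 : ℕ) : ℝ) := by
  push_cast
  have : (g : ℝ) + 2 ≠ 0 := by positivity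
  field_simp
  ring

/-- For `h ≥ 2` and integers `1 ≤ L ≤ K` with `√K - √L < √(1 - 1/h)`, and every bound `B`, there
is `η > 0` such that for every set `A` of naturals with `r_{A,h} ≤ B`, the set of `n` with
`r_{A,h}(n) < L` or `K < r_{A,h}(n)` has lower density at least `η`. -/
theorem result (h : ℕ) (hh : 2 ≤ h) (L K : ℕ) (hL : 1 ≤ L) (hLK : L ≤ K)
    (hs : Real.sqrt K - Real.sqrt L < Real.sqrt (1 - 1 / (h : ℝ))) (B : ℕ) :
    ∃ η : ℝ, 0 < η ∧ ∀ A : Set ℕ, (∀ n, rep A h n ≤ B) →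
      ∀ᶠ N : ℕ in atTop, η * N ≤ cntBelow {n | rep A h n < L ∨ K < rep A h n} N := by
  obtain ⟨g, rfl⟩ : ∃ g, h = g + 2 := ⟨h - 2, by omega⟩
  rw [← ratio_eq] at hs
  exact lower_density g hL hLK hs B

end Pool.Agent.Results.MP_d5a1e1_nt.ShortRangeDensityH13
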