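import Pool.Agent.V7H5.ET.Inf

/-!
# MP_d5a1e1_nt: a variance law for the representation functions of every order

`rep A h n` is `r_{A,h}(n)`, the number of multisets of `h` elements of `A` with sum `n`.  Averages
are taken with the weights `x ^ n`, `x → 1`.

Let `h ≥ 2` and let `P(n) = ∑ c_j e^{2 π i α_j n}` be any trigonometric polynomial (for instance a
constant, or a periodic function).  Uniformly for all sets `A` with `r_{A,h} ≤ K` the mean of
`|r_{A,h} - P|²` is at least `1 - 1/h` times the mean of `r_{A,h}`, up to `o(1)`.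

So a bounded `r_{A,h}` of an asymptotic basis is not close to any almost periodic function in the
quadratic mean: its distance to all of them is at least `√(1 - 1/h)`.

Method.  Let `f(z) = ∑_{a ∈ A} z ^ a` on `|z| = √x`, and `S = ∑_{a ∈ A} x ^ a`.  Counting the common
elements of two subsets with the same sum one gets `‖f^j‖² ≥ j (S - 2 j) ‖f^(j-1)‖²` for `j < h` up to
terms of lower order.  Since `‖f^(h-1)‖² = ∫ |f|^(h-2) |f|^h ≤ ‖f^(h-2)‖ ‖f^h - h! G‖ + h! ∫ |f|^(h-2) |G|`,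
where `G` is the generating function of `P`, with smoothed coefficients and `∫ |G| = O(1)`, the
first factor `‖f^(h-2)‖` is not larger than `‖f^(h-1)‖ / √((h-1) S)`, which gives
`‖f^h - h! G‖² ≥ (h-1) (h-1)! S^h`, and `S^h` is `h!` times the mean of `r_{A,h}`.
-/

set_option autoImplicit false

namespace Pool.Agent.Results.MP_d5a1e1_nt.VarianceLawH5

/-- `r_{A,h}(n)`: the number of the multisets of `h` elements of `A` with sum `n`. -/
noncomputable def rep (A : Set ℕ) (h n : ℕ) : ℕ :=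
  Set.ncard {s : Multiset ℕ | Multiset.card s = h ∧ (∀ a ∈ s, a ∈ A) ∧ s.sum = n}

/-- **The variance law.** -/
theorem result :
    ∀ h : ℕ, 2 ≤ h → ∀ (K k : ℕ) (c : Fin k → ℂ) (α : Fin k → ℝ) (ε : ℝ), 0 < ε →
      ∃ x₀ : ℝ, x₀ < 1 ∧ ∀ A : Set ℕ, (∀ n, rep A h n ≤ K) → ∀ x : ℝ, x₀ < x → x < 1 →
        (1 - 1 / (h : ℝ)) * (∑' n : ℕ, (rep A h n : ℝ) * x ^ n) - ε / (1 - x) ≤
          ∑' n : ℕ, ‖(rep A h n : ℂ) -
            ∑ j, c j * Complex.exp (2 * Real.pi * Complex.I * α j * n)‖ ^ 2 * x ^ n := by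
  have hr : ∀ A h n, rep A h n = Pool.Agent.V7H5.ET.rep A h n := fun _ _ _ => rfl
  intro h hh K k c α ε hε
  obtain ⟨m, rfl⟩ : ∃ m, h = m + 2 := ⟨h - 2, by omega⟩
  obtain ⟨x₀, h1, h2⟩ := Pool.Agent.V7H5.ET.var_law m K c
    (fun j => Complex.exp (2 * Real.pi * Complex.I * α j)) (fun j => by
      have : (2 * Real.pi * Complex.I * α j : ℂ) = ((2 * Real.pi * α j : ℝ) : ℂ) * Complex.I := by
        push_cast; ring
      rw [this, Complex.norm_exp_ofReal_mul_I]) hε
  refine ⟨x₀, h1, fun A hA x hx hx1 => ?_⟩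
  have h3 := h2 A hA x hx hx1
  have e1 : (1 : ℝ) - 1 / ((m + 2 : ℕ) : ℝ) = ((m : ℝ) + 1) / (m + 2) := by
    push_cast
    field_simp
    ring
  have e2 : ∀ n : ℕ, ∑ j, c j * Complex.exp (2 * Real.pi * Complex.I * α j * n) =
      Pool.Agent.V7H5.ET.tp c (fun j => Complex.exp (2 * Real.pi * Complex.I * α j)) n := by
    intro n
    unfold Pool.Agent.V7H5.ET.tp
    refine Finset.sum_congr rfl fun j _ => ?_
    rw [← Complex.exp_nat_mul, mul_comm (n : ℂ)]
  rw [e1]
  simp_rw [e2, hr]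
  rw [div_eq_mul_one_div ε]
  exact h3

end Pool.Agent.Results.MP_d5a1e1_nt.VarianceLawH5
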